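import Pool.Agent.H59.FD.Inst
import Pool.Agent.FD.InstW

/-!
# AB, Step 2: the hypothesis `SparseW` of the weighted Theorem M
-/

open Finset Polynomial

namespace H59FD

open Classical in
/-- **Sparseness of the weighted Kummer relations.** -/
theorem sparseW : Pool.Agent.FD.SparseW := by
  intro n e T c h0 h1 hns
  obtain ⟨D, c₀, hc₀, h⟩ := sparse_main_w T c h0 h1 e (by
    intro hall
    apply hns
    intro τ
    by_cases hτ : τ = 0
    · subst hτ
      rw [Finset.filter_false_of_mem (fun v _ => h0 v), Finset.filter_false_of_mem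
        (fun v _ => by rw [mul_zero]; exact zero_ne_one), Finset.sum_empty, mul_zero]
    · exact hall τ hτ)
  refine ⟨D, c₀, hc₀, fun J S hS => h J S fun m hm => ?_⟩
  obtain ⟨a1, a2, a3, a4, a5⟩ := hS m hm
  refine ⟨a1, by omega, a3, a4, ?_⟩
  rw [← a5]
  exact Finset.sum_congr rfl fun v _ => by rw [LL_eq]

/-- The weighted Theorem M with the gap property as its only hypothesis. -/
theorem theoremMW (e n r : ℕ) (C : Fin n → MvPolynomial (Fin r) ℤ) (R : ℕ → MvPolynomial (Fin r) ℤ)
    (Zok : ℕ → (ℕ → Prop) → Prop) (hgap : Pool.Agent.FD.GapG (fun m => m % 2 = e % 2) Zok) :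
    Pool.Agent.H71.FD.Null (Pool.Agent.FD.FDBadW e n r C R Zok) :=
  Pool.Agent.FD.theoremMW sparseW e n r C R Zok hgap

end H59FD
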