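import Pool.Agent.H42.FD.Defs

/-!
# FD, Step 2: `L_m(t) = (t d/dt)^m 1/(1-t)` over `ℂ`
-/

open Polynomial

namespace H59FD

open Pool.Agent.H42.FD (PE LL)

/-- `L_m` commutes with ring homomorphisms of fields -/
theorem map_LL {F G : Type*} [Field F] [Field G] (φ : F →+* G) (m : ℕ) (t : F) :
    φ (LL m t) = LL m (φ t) := by
  simp only [LL, map_div₀, map_pow, map_sub, map_one]
  congr 1
  simp only [aeval_def]
  rw [Polynomial.hom_eval₂ (PE m) (algebraMap ℤ F) φ t]
  congr 1
  exact Subsingleton.elim _ _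

lemma LL_zero {F : Type*} [Field F] (t : F) : LL 0 t = 1 / (1 - t) := by
  simp [LL, PE]

/-- the derivative along `z ↦ t e^z` -/
lemma hasDerivAt_LL (m : ℕ) (t z : ℂ) (h : t * Complex.exp z ≠ 1) :
    HasDerivAt (fun z => LL m (t * Complex.exp z)) (LL (m + 1) (t * Complex.exp z)) z := by
  have hx : HasDerivAt (fun z => t * Complex.exp z) (t * Complex.exp z) z :=
    (Complex.hasDerivAt_exp z).const_mul t
  set x := t * Complex.exp z with hxd
  have hne : (1 - x) ≠ 0 := sub_ne_zero.mpr (Ne.symm h)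
  have hP : HasDerivAt (fun x : ℂ => aeval x (PE m)) (aeval x (derivative (PE m))) x :=
    Polynomial.hasDerivAt_aeval _ _
  have hD : HasDerivAt (fun x : ℂ => (1 - x) ^ (m + 1)) (((m + 1 : ℕ) : ℂ) * (1 - x) ^ m * (0 - 1)) x := by
    have h0 : HasDerivAt (fun x : ℂ => 1 - x) (0 - 1) x :=
      (hasDerivAt_const x (1 : ℂ)).sub (hasDerivAt_id x)
    simpa using h0.fun_pow (m + 1)
  have hQ := hP.fun_div hD (pow_ne_zero _ hne)
  have := hQ.comp z hx
  refine this.congr_deriv ?_
  simp only [LL, PE, map_mul, map_add, map_sub, aeval_X, map_one, aeval_C]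
  have hpow : (1 - x) ^ (m + 1) = (1 - x) ^ m * (1 - x) := pow_succ _ _
  have hpow2 : (1 - x) ^ (m + 1 + 1) = (1 - x) ^ m * (1 - x) * (1 - x) := by
    rw [pow_succ, pow_succ]
  rw [hpow, hpow2]
  have hm : (1 - x) ^ m ≠ 0 := pow_ne_zero _ hne
  push_cast
  field_simp
  ring

lemma iteratedDeriv_LL (t : ℂ) (m : ℕ) : ∀ z : ℂ, t * Complex.exp z ≠ 1 →
    iteratedDeriv m (fun z => 1 / (1 - t * Complex.exp z)) z = LL m (t * Complex.exp z) := by
  induction m with
  | zero => intro z _; simp [LL_zero]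
  | succ m ih =>
    intro z hz
    rw [iteratedDeriv_succ]
    have hopen : IsOpen {z : ℂ | t * Complex.exp z ≠ 1} :=
      isOpen_ne_fun (continuous_const.mul Complex.continuous_exp) continuous_const
    have hev : iteratedDeriv m (fun z => 1 / (1 - t * Complex.exp z)) =ᶠ[nhds z]
        fun z => LL m (t * Complex.exp z) :=
      Filter.eventually_of_mem (hopen.mem_nhds hz) fun w hw => ih w hw
    rw [hev.deriv_eq, (hasDerivAt_LL m t z hz).deriv]

end H59FD
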