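import Pool.Agent.H59.FD.Inst
import Pool.Agent.H56.FD.GapFin

/-!
# Project FD: Theorem M, unconditional
-/

namespace H59FD

/-- **Theorem M**: for every `n` the set of the primes `p` for which some family of at most `n` elements
`≠ 0, 1` of a field of characteristic `p` satisfies all available Kummer relations without being stable
under inversion has density zero. -/
theorem theorem_M (n : ℕ) : Pool.Agent.H71.FD.Null (Pool.Agent.FD.FDBad n) :=
  theoremM H56FD.gap n

end H59FD
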