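import Mathlib

/-!
# FD, Step 2: a good prime

For a finite set `F` of nonzero algebraic numbers there is a prime `l > B` and an embedding of
`AlgebraicClosure ℚ` in `PadicAlgCl l` such that all the elements of `F` have norm one.
-/

open Finset

namespace H59FD

/-- integral elements have norm `≤ 1` -/
lemma norm_le_one_of_integral {l : ℕ} [Fact l.Prime] {x : PadicAlgCl l} (h : IsIntegral ℤ x) :
    ‖x‖ ≤ 1 := by
  have h1 : IsIntegral (Valued.v : Valuation (PadicAlgCl l) NNReal).integer x := h.tower_top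
  have h2 := (Valuation.integer.integers (Valued.v : Valuation (PadicAlgCl l) NNReal)).mem_of_integral h1
  rw [Valuation.mem_integer_iff, PadicAlgCl.valuation_def] at h2
  exact_mod_cast h2

/-- the good prime -/
theorem exists_good (B : ℕ) (F : Finset (AlgebraicClosure ℚ)) (hF : 0 ∉ F) :
    ∃ (l : ℕ) (_ : Fact l.Prime), B < l ∧ ∃ σ : AlgebraicClosure ℚ →+* PadicAlgCl l,
      ∀ x ∈ F, ‖σ x‖ = 1 := by
  classical
  have : Algebra.IsAlgebraic ℚ (AlgebraicClosure ℚ) := AlgebraicClosure.isAlgebraic ℚ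
  have halg : ∀ x : AlgebraicClosure ℚ, ∃ a : ℤ, a ≠ 0 ∧ IsIntegral ℤ (a • x) := by
    intro x
    have h1 : IsAlgebraic ℚ x := Algebra.IsAlgebraic.isAlgebraic x
    have h2 : IsAlgebraic ℤ x := (IsFractionRing.isAlgebraic_iff ℤ ℚ (AlgebraicClosure ℚ)).mpr h1
    exact h2.exists_integral_multiple
  choose a ha0 ha using halg
  obtain ⟨l, hl, hlp⟩ := Nat.exists_infinite_primes
    (max (B + 1) (∏ x ∈ F, ((a x).natAbs * (a x⁻¹).natAbs) + 1))
  have : Fact l.Prime := ⟨hlp⟩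
  have hlB : B < l := lt_of_lt_of_le (Nat.lt_succ_self B) ((le_max_left _ _).trans hl)
  have hlP : ∏ x ∈ F, ((a x).natAbs * (a x⁻¹).natAbs) < l :=
    lt_of_lt_of_le (Nat.lt_succ_self _) ((le_max_right _ _).trans hl)
  have hnorm : ∀ b : ℤ, b ≠ 0 → b.natAbs < l → ‖(b : PadicAlgCl l)‖ = 1 := by
    intro b hb hbl
    rw [← map_intCast (algebraMap ℚ_[l] (PadicAlgCl l)), PadicAlgCl.norm_extends]
    have h1 : ¬ (‖(b : ℚ_[l])‖ < 1) := by
      rw [Padic.norm_intCast_lt_one_iff]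
      intro h2
      have h3 : l ∣ b.natAbs := Int.natCast_dvd.mp h2
      exact absurd (Nat.le_of_dvd (Int.natAbs_pos.mpr hb) h3) (by omega)
    exact le_antisymm (Padic.norm_int_le_one b) (not_lt.mp h1)
  let σ : AlgebraicClosure ℚ →+* PadicAlgCl l := (IsAlgClosed.lift (M := PadicAlgCl l) (R := ℚ)
    (S := AlgebraicClosure ℚ)).toRingHom
  refine ⟨l, inferInstance, hlB, σ, fun x hx => ?_⟩
  have hx0 : x ≠ 0 := fun h => hF (h ▸ hx)
  have hpos : 0 < ∏ x ∈ F, ((a x).natAbs * (a x⁻¹).natAbs) := Finset.prod_pos fun y _ =>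
    Nat.mul_pos (Int.natAbs_pos.mpr (ha0 y)) (Int.natAbs_pos.mpr (ha0 _))
  have hdvd : (a x).natAbs * (a x⁻¹).natAbs ∣ ∏ x ∈ F, ((a x).natAbs * (a x⁻¹).natAbs) :=
    Finset.dvd_prod_of_mem _ hx
  have hle : ∀ y : AlgebraicClosure ℚ, (a y).natAbs < l → ‖σ y‖ ≤ 1 := by
    intro y hy
    have h1 : IsIntegral ℤ (σ (a y • y)) := map_isIntegral_int σ (ha y)
    have h2 := norm_le_one_of_integral h1
    rw [zsmul_eq_mul, map_mul, map_intCast, norm_mul, hnorm _ (ha0 y) hy, one_mul] at h2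
    exact h2
  have h1 : ‖σ x‖ ≤ 1 := hle x (by
    refine lt_of_le_of_lt (Nat.le_of_dvd hpos (dvd_trans (dvd_mul_right _ _) hdvd)) hlP)
  have h2 : ‖σ x⁻¹‖ ≤ 1 := hle x⁻¹ (by
    refine lt_of_le_of_lt (Nat.le_of_dvd hpos (dvd_trans (dvd_mul_left _ _) hdvd)) hlP)
  have h3 : ‖σ x‖ * ‖σ x⁻¹‖ = 1 := by
    rw [← norm_mul, ← map_mul, mul_inv_cancel₀ hx0, map_one, norm_one]
  refine le_antisymm h1 ?_
  calc (1 : ℝ) = ‖σ x‖ * ‖σ x⁻¹‖ := h3.symm
    _ ≤ ‖σ x‖ * 1 := by gcongr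
    _ = ‖σ x‖ := mul_one _

end H59FD
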