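import Pool.Agent.H59.FD.Main
import Pool.Agent.FD.Main

/-!
# FD, Step 2: the hypothesis `SparseMain` of Theorem M
-/

open Finset Polynomial

namespace H59FD

theorem eul_eq_PE (m : ℕ) : H69FD.eul m = Pool.Agent.H42.FD.PE m := by
  induction m with
  | zero => rfl
  | succ m ih =>
    rw [H69FD.eul_succ, Pool.Agent.H42.FD.PE, ih]
    simp

theorem LL_eq {F : Type*} [Field F] (m : ℕ) (t : F) : H69FD.LL m t = Pool.Agent.H42.FD.LL m t := by
  rw [H69FD.LL, Pool.Agent.H42.FD.LL, eul_eq_PE]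

/-- **Sparseness of the Kummer relations**: INTERFACE 2. -/
theorem sparseMain : Pool.Agent.FD.SparseMain := by
  intro n T h0 h1 hns
  obtain ⟨D, c, hc, h⟩ := sparse_main T h0 h1 hns
  refine ⟨D, c, hc, fun J S hS => h J S fun m hm => ?_⟩
  obtain ⟨a1, a2, a3, a4, a5⟩ := hS m hm
  refine ⟨a1, by omega, a3, a4, ?_⟩
  rw [← a5]
  exact Finset.sum_congr rfl fun v _ => (LL_eq m (T v)).symm

/-- Theorem M with the gap property as its only hypothesis -/
theorem theoremM (hgap : Pool.Agent.FD.Gap) (n : ℕ) :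
    Pool.Agent.H71.FD.Null (Pool.Agent.FD.FDBad n) :=
  Pool.Agent.FD.theoremM sparseMain hgap n

end H59FD
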