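import Pool.Agent.H90.FD.Diff
import Pool.Agent.H90.FD.Rec
import Pool.Agent.H87.FD.Strass
import Pool.Agent.H42.FD.Defs

/-!
# FD, Step 2: one residue class
-/

open Finset Filter Topology

namespace H59FD

open H90FD (HH norm_diff)
open Pool.Agent.H42.FD (PE LL)

/-- the two definitions of `L_m` agree -/
lemma LL_bridge {E : Type*} [Field E] (m : ℕ) (t : E) : H90FD.LL m t = LL m t := by
  refine H90FD.LL_eq_PE PE rfl (fun m => ?_) m t
  rw [PE]
  simp

section basic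

variable {l : ℕ} [hl : Fact l.Prime]

lemma norm_nat (n : ℕ) : ‖(n : PadicAlgCl l)‖ = ‖(n : ℚ_[l])‖ := by
  rw [← map_natCast (algebraMap ℚ_[l] (PadicAlgCl l)), PadicAlgCl.norm_extends]

lemma norm_l : ‖(l : PadicAlgCl l)‖ = (l : ℝ)⁻¹ := by
  rw [norm_nat, Padic.norm_p]

lemma norm_nat_eq (n : ℕ) (hn : n ≠ 0) :
    ‖(n : PadicAlgCl l)‖ = (l : ℝ)⁻¹ ^ padicValNat l n := by
  rw [norm_nat, Padic.norm_eq_zpow_neg_valuation (by exact_mod_cast hn), Padic.valuation_natCast,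
    zpow_neg, zpow_natCast, inv_pow]

lemma norm_nat_ge (n : ℕ) (hn : n ≠ 0) : 1 / (n : ℝ) ≤ ‖(n : PadicAlgCl l)‖ := by
  rw [norm_nat_eq n hn, inv_pow, one_div]
  have h1 : l ^ padicValNat l n ≤ n := Nat.le_of_dvd (Nat.pos_of_ne_zero hn) pow_padicValNat_dvd
  have h2 : (0 : ℝ) < (l : ℝ) ^ padicValNat l n := by
    have := hl.out.pos
    positivity
  apply inv_anti₀ h2
  exact_mod_cast h1

/-- `‖r!‖ ≥ l^(-r/2)`, squared -/
lemma norm_fac (hl3 : 3 ≤ l) (r : ℕ) : (l : ℝ)⁻¹ ^ r ≤ ‖(r.factorial : PadicAlgCl l)‖ ^ 2 := by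
  rw [norm_nat_eq _ (Nat.factorial_ne_zero r), ← pow_mul]
  have h1 : (l - 1) * padicValNat l r.factorial ≤ r := by
    rw [sub_one_mul_padicValNat_factorial]
    exact Nat.sub_le _ _
  have h2 : padicValNat l r.factorial * 2 ≤ r := by
    refine le_trans ?_ h1
    rw [mul_comm]
    exact Nat.mul_le_mul_right _ (by omega)
  have h3 : (1 : ℝ) ≤ l := by exact_mod_cast hl.out.one_lt.le
  exact pow_le_pow_of_le_one (by positivity) (inv_le_one_of_one_le₀ h3) h2

lemma good_pow {t : PadicAlgCl l} (h0 : ‖t‖ ≤ 1) (h1 : ‖1 - t‖ = 1) (hodd : Odd l) :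
    ‖1 - t ^ l‖ = 1 := by
  have hb : ∃ r : PadicAlgCl l, ‖r‖ ≤ 1 ∧ (1 + (-t)) ^ l = 1 - t ^ l + l * r := by
    refine ⟨1 * (-t) * ∑ k ∈ Ioo 0 l, 1 ^ (k - 1) * (-t) ^ (l - k - 1) * ((l.choose k / l : ℕ) : PadicAlgCl l), ?_, ?_⟩
    · rw [one_mul, norm_mul, norm_neg]
      refine mul_le_one₀ h0 (norm_nonneg _) ?_
      refine IsUltrametricDist.norm_sum_le_of_forall_le_of_nonneg (by norm_num) fun k _ => ?_
      rw [one_pow, one_mul, norm_mul, norm_pow, norm_neg]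
      exact mul_le_one₀ (pow_le_one₀ (norm_nonneg _) h0) (norm_nonneg _)
        (IsUltrametricDist.norm_natCast_le_one _ _)
    · rw [add_pow_prime_eq hl.out, one_pow, hodd.neg_pow]
      ring
  obtain ⟨r, hr, he⟩ := hb
  have h2 : ‖(1 + (-t)) ^ l‖ = 1 := by
    rw [norm_pow, ← sub_eq_add_neg, h1, one_pow]
  have h3 : ‖(l : PadicAlgCl l) * r‖ < 1 := by
    rw [norm_mul, norm_l]
    have h4 : (l : ℝ)⁻¹ < 1 := inv_lt_one_of_one_lt₀ (by exact_mod_cast hl.out.one_lt)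
    calc (l : ℝ)⁻¹ * ‖r‖ ≤ (l : ℝ)⁻¹ * 1 := by gcongr
      _ < 1 := by rw [mul_one]; exact h4
  have h5 : 1 - t ^ l = (1 + (-t)) ^ l + (-(l * r)) := by rw [he]; ring
  rw [h5, IsUltrametricDist.norm_add_eq_max_of_norm_ne_norm, h2, norm_neg, max_eq_left h3.le]
  rw [h2, norm_neg]
  exact (ne_of_lt h3).symm

lemma good_iter {t : PadicAlgCl l} (h0 : ‖t‖ ≤ 1) (h1 : ‖1 - t‖ = 1) (hodd : Odd l) (i : ℕ) :
    ‖t ^ l ^ i‖ ≤ 1 ∧ ‖1 - t ^ l ^ i‖ = 1 := by
  induction i with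
  | zero => simpa using ⟨h0, h1⟩
  | succ i ih =>
    rw [pow_succ, pow_mul]
    refine ⟨?_, good_pow ih.1 ih.2 hodd⟩
    rw [norm_pow]
    exact pow_le_one₀ (norm_nonneg _) ih.1

end basic

section main

variable {l : ℕ} [hl : Fact l.Prime] {ι : Type*} [Fintype ι]

/-- norm of `L_m` -/
lemma norm_LL_le (m : ℕ) {t : PadicAlgCl l} (h0 : ‖t‖ ≤ 1) (h1 : ‖1 - t‖ = 1) :
    ‖LL m t‖ ≤ 1 := by
  rw [← LL_bridge]
  apply H90FD.norm_S (by norm_num)
  · intro n
    rw [norm_pow]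
    exact pow_le_one₀ (norm_nonneg _) (IsUltrametricDist.norm_natCast_le_one _ _)
  · exact h0
  · exact h1

/-- norm of the weighted sum -/
lemma norm_sum_LL_le (m : ℕ) (T w : ι → PadicAlgCl l) (hw : ∀ v, ‖w v‖ ≤ 1)
    (h0 : ∀ v, ‖T v‖ ≤ 1) (h1 : ∀ v, ‖1 - T v‖ = 1) : ‖∑ v, w v * LL m (T v)‖ ≤ 1 := by
  apply IsUltrametricDist.norm_sum_le_of_forall_le_of_nonneg (by norm_num)
  intro v _
  rw [norm_mul]
  exact mul_le_one₀ (hw v) (norm_nonneg _) (norm_LL_le m (h0 v) (h1 v))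

/-- **one residue class**, with weights -/
theorem sparse_class_w (hl3 : 3 ≤ l) (T w : ι → PadicAlgCl l) (hw : ∀ v, ‖w v‖ ≤ 1)
    (h0 : ∀ v, ‖T v‖ ≤ 1) (h1 : ∀ v, ‖1 - T v‖ = 1) {c : ℕ} (hc : 1 ≤ c) :
    (∀ s, ∑ v, w v * LL (c + (l - 1) * s) (T v) = 0) ∨
    ∃ D : ℕ, ∃ c₀ : ℝ, 0 < c₀ ∧ ∃ J₀ : ℕ, ∀ J, J₀ ≤ J → ∀ S : Finset ℕ,
      (∀ s ∈ S, J ≤ c + (l - 1) * s ∧ ((c + (l - 1) * s : ℕ) : ℝ) ≤ Real.exp (c₀ * J) ∧
        ∑ v, w v * LL (c + (l - 1) * s) (T v) = 0) → S.card ≤ D := by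
  classical
  have hodd : Odd l := hl.out.odd_of_ne_two (by omega)
  have hl1 : (1 : ℝ) < l := by exact_mod_cast hl.out.one_lt
  have hl0 : (l : PadicAlgCl l) ≠ 0 := by exact_mod_cast hl.out.ne_zero
  set U : ℕ → ι → PadicAlgCl l := fun i v => T v ^ l ^ i with hU
  have hU0 : ∀ i v, ‖U i v‖ ≤ 1 := fun i v => (good_iter (h0 v) (h1 v) hodd i).1
  have hU1 : ∀ i v, ‖1 - U i v‖ = 1 := fun i v => (good_iter (h0 v) (h1 v) hodd i).2
  have hUs : ∀ i v, U i v ^ l = U (i + 1) v := by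
    intro i v; simp only [hU]; rw [← pow_mul, ← pow_succ]
  set u : ℕ → ℕ → PadicAlgCl l := fun i m => ∑ v, w v * LL m (U i v) with hu
  set x : ℕ → ℕ → PadicAlgCl l := fun i =>
    ∑ v, w v • (fun s : ℕ => HH l (c + (l - 1) * s) (fun _ : Unit => U i v)) with hx
  have hxv : ∀ i s, x i s = ∑ v, w v * (LL (c + (l - 1) * s) (U i v) -
      (l : PadicAlgCl l) ^ (c + (l - 1) * s) * LL (c + (l - 1) * s) (U (i + 1) v)) := by
    intro i s
    simp only [hx, Finset.sum_apply, Pi.smul_apply, smul_eq_mul]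
    refine Finset.sum_congr rfl fun v _ => ?_
    simp only [HH, LL_bridge, Finset.univ_unique, Finset.sum_singleton, hUs]
  have hstep : ∀ i s, u i (c + (l - 1) * s) = x i s + (l : PadicAlgCl l) ^ (c + (l - 1) * s) *
      u (i + 1) (c + (l - 1) * s) := by
    intro i s
    rw [hxv]
    simp only [hu, Finset.mul_sum]
    rw [← Finset.sum_add_distrib]
    exact Finset.sum_congr rfl fun v _ => by ring
  have hu0 : ∀ m, u 0 m = ∑ v, w v * LL m (T v) := by
    intro m; simp [hu, hU]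
  by_cases hall : ∀ i s, x i s = 0
  · left
    intro s
    rw [← hu0]
    have hit : ∀ i, u 0 (c + (l - 1) * s) =
        ((l : PadicAlgCl l) ^ (c + (l - 1) * s)) ^ i * u i (c + (l - 1) * s) := by
      intro i
      induction i with
      | zero => simp
      | succ i ih => rw [ih, hstep i s, hall i s, zero_add, pow_succ, mul_assoc]
    have hn : ∀ i : ℕ, ‖u 0 (c + (l - 1) * s)‖ ≤ ((l : ℝ)⁻¹) ^ i := by
      intro i
      rw [hit i, norm_mul, norm_pow, norm_pow, norm_l]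
      have e1 : ‖u i (c + (l - 1) * s)‖ ≤ 1 := norm_sum_LL_le _ _ _ hw (hU0 i) (hU1 i)
      have e2 : (((l : ℝ)⁻¹) ^ (c + (l - 1) * s)) ^ i ≤ ((l : ℝ)⁻¹) ^ i := by
        apply pow_le_pow_left₀ (by positivity)
        calc ((l : ℝ)⁻¹) ^ (c + (l - 1) * s) ≤ ((l : ℝ)⁻¹) ^ 1 :=
              pow_le_pow_of_le_one (by positivity) (inv_le_one_of_one_le₀ hl1.le) (by omega)
          _ = _ := pow_one _
      calc _ ≤ ((l : ℝ)⁻¹) ^ i * 1 := by
            apply mul_le_mul e2 e1 (norm_nonneg _) (by positivity)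
        _ = _ := mul_one _
    have ht : Tendsto (fun i : ℕ => ((l : ℝ)⁻¹) ^ i) atTop (𝓝 0) :=
      tendsto_pow_atTop_nhds_zero_of_lt_one (by positivity) (inv_lt_one_of_one_lt₀ hl1)
    have h2 : ‖u 0 (c + (l - 1) * s)‖ ≤ 0 := ge_of_tendsto' ht hn
    exact norm_le_zero_iff.mp h2
  · right
    push Not at hall
    set i := Nat.find hall with hi
    obtain ⟨s₁, hs₁⟩ := Nat.find_spec hall
    rw [← hi] at hs₁
    have hmin : ∀ j, j < i → ∀ s, x j s = 0 := by
      intro j hj s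
      by_contra h
      exact Nat.find_min hall hj ⟨s, h⟩
    have hit : ∀ s, ∀ j, j ≤ i → u 0 (c + (l - 1) * s) =
        ((l : PadicAlgCl l) ^ (c + (l - 1) * s)) ^ j * u j (c + (l - 1) * s) := by
      intro s j
      induction j with
      | zero => intro _; simp
      | succ j ih =>
        intro hj
        rw [ih (by omega), hstep j s, hmin j (by omega) s, zero_add, pow_succ, mul_assoc]
    have hzero : ∀ s, u 0 (c + (l - 1) * s) = 0 → ‖x i s‖ ≤ (l : ℝ)⁻¹ ^ (c + (l - 1) * s) := by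
      intro s hs
      rw [hit s i le_rfl] at hs
      have h2 : u i (c + (l - 1) * s) = 0 :=
        (mul_eq_zero.mp hs).resolve_left (pow_ne_zero _ (pow_ne_zero _ hl0))
      have h3 := hstep i s
      rw [h2] at h3
      have h4 : x i s = -((l : PadicAlgCl l) ^ (c + (l - 1) * s) * u (i + 1) (c + (l - 1) * s)) := by
        linear_combination -h3
      rw [h4, norm_neg, norm_mul, norm_pow, norm_l]
      have e1 : ‖u (i + 1) (c + (l - 1) * s)‖ ≤ 1 :=
        norm_sum_LL_le _ _ _ hw (hU0 (i + 1)) (hU1 (i + 1))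
      calc _ ≤ (l : ℝ)⁻¹ ^ (c + (l - 1) * s) * 1 := by gcongr
        _ = _ := mul_one _
    -- Strassmann
    set d : ℕ → PadicAlgCl l := fun r => (fwdDiff 1)^[r] (x i) 0 / (r.factorial : PadicAlgCl l) with hd
    have hnd : ∀ r, ‖d r‖ ^ 2 ≤ (l : ℝ)⁻¹ ^ r := by
      intro r
      have e1 : ‖(fwdDiff 1)^[r] (x i) 0‖ ≤ (l : ℝ)⁻¹ ^ r := by
        simp only [hx]
        rw [fwdDiff_iter_finsetSum, Finset.sum_apply]
        apply IsUltrametricDist.norm_sum_le_of_forall_le_of_nonneg (by positivity)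
        intro v _
        rw [fwdDiff_iter_const_smul, Pi.smul_apply, smul_eq_mul, norm_mul]
        have e2 := norm_diff (l := l) c (fun _ : Unit => U i v) (fun _ => hU0 i v)
          (fun _ => by rw [hUs]; exact hU1 (i + 1) v) r
        rw [norm_l] at e2
        calc _ ≤ 1 * (l : ℝ)⁻¹ ^ r := by
              apply mul_le_mul (hw v) e2 (norm_nonneg _) (by norm_num)
          _ = _ := one_mul _
      have e2 := norm_fac hl3 r
      have e3 : 0 < (l : ℝ)⁻¹ ^ r := by positivity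
      simp only [hd]
      rw [norm_div, div_pow, div_le_iff₀ (lt_of_lt_of_le e3 e2)]
      calc ‖(fwdDiff 1)^[r] (x i) 0‖ ^ 2 ≤ ((l : ℝ)⁻¹ ^ r) ^ 2 := by gcongr
        _ = (l : ℝ)⁻¹ ^ r * (l : ℝ)⁻¹ ^ r := by ring
        _ ≤ (l : ℝ)⁻¹ ^ r * ‖(r.factorial : PadicAlgCl l)‖ ^ 2 := by gcongr
    have htend : Tendsto (fun r => ‖d r‖) atTop (𝓝 0) := by
      have ht : Tendsto (fun i : ℕ => ((l : ℝ)⁻¹) ^ i) atTop (𝓝 0) :=
        tendsto_pow_atTop_nhds_zero_of_lt_one (by positivity) (inv_lt_one_of_one_lt₀ hl1)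
      have h2 : Tendsto (fun r => ‖d r‖ ^ 2) atTop (𝓝 0) :=
        squeeze_zero (fun r => by positivity) hnd ht
      have h3 := (Real.continuous_sqrt.tendsto 0).comp h2
      rw [Real.sqrt_zero] at h3
      refine h3.congr fun r => ?_
      simp only [Function.comp]
      exact Real.sqrt_sq (norm_nonneg _)
    have hnewton : ∀ s, x i s = ∑ r ∈ range (s + 1), d r * (s.descFactorial r : PadicAlgCl l) := by
      intro s
      have h2 := shift_eq_sum_fwdDiff_iter 1 (x i) s 0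
      simp only [smul_eq_mul, mul_one, zero_add] at h2
      rw [h2]
      refine Finset.sum_congr rfl fun r _ => ?_
      simp only [hd]
      have hf : (r.factorial : PadicAlgCl l) ≠ 0 := by exact_mod_cast Nat.factorial_ne_zero r
      rw [Nat.descFactorial_eq_factorial_mul_choose, Nat.cast_mul, nsmul_eq_mul]
      field_simp
    have hdne : ∃ r, d r ≠ 0 := by
      by_contra hcon
      push Not at hcon
      apply hs₁
      rw [hnewton s₁]
      exact Finset.sum_eq_zero fun r _ => by rw [hcon r, zero_mul]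
    obtain ⟨D, C, hC, hS⟩ := H87FD.strass (fun n hn => norm_nat_ge n hn) d htend hdne (x i) hnewton
    have hlog : 0 < Real.log l := Real.log_pos hl1
    refine ⟨D, Real.log l / (2 * (D + 1)), by positivity, ?_⟩
    -- choose `J₀`
    obtain ⟨J₀, hJ₀⟩ : ∃ J₀ : ℕ, ∀ J : ℕ, J₀ ≤ J → Real.exp (-(J * (Real.log l / 2))) < C := by
      have ht : Tendsto (fun J : ℕ => Real.exp (-((J : ℝ) * (Real.log l / 2)))) atTop (𝓝 0) := by
        apply Real.tendsto_exp_neg_atTop_nhds_zero.comp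
        exact Tendsto.atTop_mul_const (by positivity) tendsto_natCast_atTop_atTop
      exact eventually_atTop.mp (ht.eventually (gt_mem_nhds hC))
    refine ⟨J₀, fun J hJ S hSm => ?_⟩
    by_contra hcard
    push Not at hcard
    obtain ⟨A, hAS, hAc⟩ := Finset.exists_subset_card_eq (n := D + 1) (by omega : D + 1 ≤ S.card)
    set X := Real.exp (Real.log l / (2 * (D + 1)) * J) with hX
    have hX0 : 0 < X := Real.exp_pos _
    obtain ⟨s, hsA, hsC⟩ := hS A hAc ⌊X⌋₊ (by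
      intro s hs
      apply Nat.le_floor
      have h2 := (hSm s (hAS hs)).2.1
      refine le_trans ?_ h2
      have h3 : s ≤ c + (l - 1) * s := by
        have : 1 * s ≤ (l - 1) * s := Nat.mul_le_mul_right _ (by omega)
        omega
      exact_mod_cast h3)
    obtain ⟨hs1, hs2, hs3⟩ := hSm s (hAS hsA)
    have h4 : ‖x i s‖ ≤ (l : ℝ)⁻¹ ^ J := by
      refine (hzero s (by rw [hu0]; exact hs3)).trans ?_
      exact pow_le_pow_of_le_one (by positivity) (inv_le_one_of_one_le₀ hl1.le) hs1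
    have h5 : ((⌊X⌋₊ : ℕ) : ℝ) ^ D ≤ X ^ D := by
      apply pow_le_pow_left₀ (by positivity)
      exact Nat.floor_le hX0.le
    have h6 : C ≤ (l : ℝ)⁻¹ ^ J * X ^ D := by
      refine hsC.trans ?_
      apply mul_le_mul h4 h5 (by positivity) (by positivity)
    have h7 : (l : ℝ)⁻¹ ^ J * X ^ D ≤ Real.exp (-(J * (Real.log l / 2))) := by
      have e1 : (l : ℝ)⁻¹ ^ J = Real.exp (-(J * Real.log l)) := by
        rw [inv_pow, Real.exp_neg, mul_comm, Real.exp_mul, Real.exp_log (by linarith),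
          Real.rpow_natCast]
      have e2 : X ^ D = Real.exp (Real.log l / (2 * (D + 1)) * J * D) := by
        rw [hX, ← Real.exp_nat_mul]; ring_nf
      rw [e1, e2, ← Real.exp_add]
      apply Real.exp_le_exp.mpr
      have e3 : Real.log l / (2 * (D + 1)) * J * D ≤ Real.log l / 2 * J := by
        have hD1 : (0 : ℝ) < (D : ℝ) + 1 := by positivity
        rw [show Real.log l / (2 * ((D : ℝ) + 1)) * J * D = (Real.log l / 2 * J) * (D / (D + 1)) by
          field_simp]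
        have : (D : ℝ) / (D + 1) ≤ 1 := by
          rw [div_le_one hD1]; linarith
        calc (Real.log l / 2 * J) * (D / (D + 1)) ≤ (Real.log l / 2 * J) * 1 := by gcongr
          _ = _ := mul_one _
      nlinarith
    exact absurd (h6.trans h7) (not_le.mpr (hJ₀ J hJ))

/-- **one residue class** -/
theorem sparse_class (hl3 : 3 ≤ l) (T : ι → PadicAlgCl l) (h0 : ∀ v, ‖T v‖ ≤ 1)
    (h1 : ∀ v, ‖1 - T v‖ = 1) {c : ℕ} (hc : 1 ≤ c) :
    (∀ s, ∑ v, LL (c + (l - 1) * s) (T v) = 0) ∨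
    ∃ D : ℕ, ∃ c₀ : ℝ, 0 < c₀ ∧ ∃ J₀ : ℕ, ∀ J, J₀ ≤ J → ∀ S : Finset ℕ,
      (∀ s ∈ S, J ≤ c + (l - 1) * s ∧ ((c + (l - 1) * s : ℕ) : ℝ) ≤ Real.exp (c₀ * J) ∧
        ∑ v, LL (c + (l - 1) * s) (T v) = 0) → S.card ≤ D := by
  have h := sparse_class_w hl3 T (fun _ => 1) (fun _ => by simp) h0 h1 hc
  simpa using h

end main

end H59FD
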