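import Pool.Agent.H59.FD.Whole
import Pool.Agent.H59.FD.Sparse
import Pool.Agent.H59.FD.Good
import Pool.Agent.H90.FD.Inv

/-!
# FD, Step 2: the sparseness theorem
-/

open Finset Filter Topology

namespace H59FD

open Pool.Agent.H42.FD (PE LL Inv)

open Classical in
/-- a whole class over `AlgebraicClosure ℚ` -/
theorem whole_alg {n : ℕ} (T w : Fin n → AlgebraicClosure ℚ) (h1 : ∀ v, T v ≠ 1) {N : ℕ}
    (hN0 : 0 < N) (hN : Even N) (c : ℕ)
    (hu : ∀ s, ∑ v, w v * LL (c + N * s) (T v) = 0) (t : AlgebraicClosure ℚ) (ht : t ≠ 0) :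
    ∑ v ∈ univ.filter (fun v => T v = t), w v =
      (-1) ^ c * ∑ v ∈ univ.filter (fun v => T v * t = 1), w v := by
  have : Algebra.IsAlgebraic ℚ (AlgebraicClosure ℚ) := AlgebraicClosure.isAlgebraic ℚ
  let φ : AlgebraicClosure ℚ →+* ℂ := (IsAlgClosed.lift (M := ℂ) (R := ℚ)
    (S := AlgebraicClosure ℚ)).toRingHom
  have hinj : Function.Injective φ := φ.injective
  have h2 := whole_class_w (fun v => φ (T v)) (fun v => φ (w v))
    (fun v h => h1 v (hinj (by rw [h, map_one]))) hN0 hN c c (by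
      intro m hm hmc
      obtain ⟨s, rfl⟩ : ∃ s, m = c + N * s := by
        have h3 : N ∣ m - c := (Nat.modEq_iff_dvd' hm).mp hmc.symm
        obtain ⟨s, hs⟩ := h3
        exact ⟨s, by omega⟩
      have h4 := congrArg φ (hu s)
      rw [map_sum, map_zero] at h4
      rw [← h4]
      refine Finset.sum_congr rfl fun v _ => ?_
      rw [map_mul, map_LL]) (φ t) (by rwa [Ne, map_eq_zero])
  apply hinj
  rw [map_sum, map_mul, map_sum, map_pow, map_neg, map_one]
  have e1 : univ.filter (fun v => φ (T v) = φ t) = univ.filter (fun v => T v = t) := by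
    ext v; simp [hinj.eq_iff]
  have e2 : univ.filter (fun v => φ (T v) * φ t = 1) = univ.filter (fun v => T v * t = 1) := by
    ext v
    simp only [mem_filter, mem_univ, true_and]
    rw [← map_mul, map_eq_one_iff φ hinj]
  rw [← e1, ← e2]
  convert h2

open Classical in
/-- **Sparseness**, with weights `w` and parity `r`. -/
theorem sparse_main_w {n : ℕ} (T w : Fin n → AlgebraicClosure ℚ)
    (h0 : ∀ v, T v ≠ 0) (h1 : ∀ v, T v ≠ 1) (r : ℕ)
    (hns : ¬ ∀ t, t ≠ 0 → ∑ v ∈ univ.filter (fun v => T v = t), w v =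
      (-1) ^ r * ∑ v ∈ univ.filter (fun v => T v * t = 1), w v) :
    ∃ D : ℕ, ∃ c₀ : ℝ, 0 < c₀ ∧ ∀ (J : ℕ) (S : Finset ℕ),
      (∀ m ∈ S, m % 2 = r % 2 ∧ 1 ≤ m ∧ J ≤ m ∧ (m : ℝ) ≤ Real.exp (c₀ * J) ∧
        ∑ v, w v * LL m (T v) = 0) → S.card ≤ D := by
  obtain ⟨l, hl, hl3, σ, hσ⟩ := exists_good 2
    ((univ.image T ∪ univ.image (fun v => 1 - T v)) ∪ (univ.image w).filter (fun x => x ≠ 0)) (by
      simp only [mem_union, mem_image, mem_univ, true_and, mem_filter, ne_eq, not_true_eq_false,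
        and_false, or_false, not_or, not_exists]
      exact ⟨fun v => h0 v, fun v h => h1 v (by rw [sub_eq_zero] at h; exact h.symm)⟩)
  have hT0 : ∀ v, ‖σ (T v)‖ ≤ 1 := fun v => (hσ _ (by simp)).le
  have hT1 : ∀ v, ‖1 - σ (T v)‖ = 1 := by
    intro v
    have := hσ (1 - T v) (by simp)
    rwa [map_sub, map_one] at this
  have hw : ∀ v, ‖σ (w v)‖ ≤ 1 := by
    intro v
    by_cases h : w v = 0
    · rw [h, map_zero, norm_zero]; norm_num
    · refine (hσ _ ?_).le
      simp only [mem_union, mem_image, mem_univ, true_and, mem_filter]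
      exact Or.inr ⟨⟨v, rfl⟩, h⟩
  have hl2 : 0 < l - 1 := by omega
  have hodd : Odd l := hl.out.odd_of_ne_two (by omega)
  have heven : Even (l - 1) := Nat.Odd.sub_odd hodd odd_one
  have hsig : ∀ m, ∑ v, σ (w v) * LL m (σ (T v)) = σ (∑ v, w v * LL m (T v)) := by
    intro m
    rw [map_sum]
    exact Finset.sum_congr rfl fun v _ => by rw [map_mul, map_LL]
  -- each class is sparse
  have hcl : ∀ c, ∃ D : ℕ, ∃ c₀ : ℝ, 0 < c₀ ∧ ∃ J₀ : ℕ, 1 ≤ c → c % 2 = r % 2 →
      ∀ J, J₀ ≤ J → ∀ S : Finset ℕ,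
      (∀ s ∈ S, J ≤ c + (l - 1) * s ∧ ((c + (l - 1) * s : ℕ) : ℝ) ≤ Real.exp (c₀ * J) ∧
        ∑ v, w v * LL (c + (l - 1) * s) (T v) = 0) → S.card ≤ D := by
    intro c
    by_cases hc : 1 ≤ c ∧ c % 2 = r % 2
    · rcases sparse_class_w hl3 (fun v => σ (T v)) (fun v => σ (w v)) hw hT0 hT1 hc.1 with h | h
      · exfalso
        apply hns
        have h2 : ∀ s, ∑ v, w v * LL (c + (l - 1) * s) (T v) = 0 := by
          intro s
          have h3 := h s
          rw [hsig] at h3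
          exact (map_eq_zero σ).mp h3
        intro t ht
        rw [whole_alg T w h1 hl2 heven c h2 t ht]
        congr 1
        rw [neg_one_pow_eq_pow_mod_two, hc.2, ← neg_one_pow_eq_pow_mod_two]
      · obtain ⟨D, c₀, hc₀, J₀, hJ⟩ := h
        refine ⟨D, c₀, hc₀, J₀, fun _ _ J hJJ S hS => hJ J hJJ S fun s hs => ?_⟩
        obtain ⟨a1, a2, a3⟩ := hS s hs
        refine ⟨a1, a2, ?_⟩
        rw [hsig, a3, map_zero]
    · refine ⟨0, 1, one_pos, 0, fun h1 h2 => absurd ⟨h1, h2⟩ hc⟩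
  choose D c₀ hc₀ J₀ hcl using hcl
  -- the constants
  set cc := (Icc 1 (l - 1)).inf' ⟨1, by rw [mem_Icc]; omega⟩ c₀ with hcc
  have hccpos : 0 < cc := by
    rw [hcc, Finset.lt_inf'_iff]
    exact fun c _ => hc₀ c
  set JJ := (Icc 1 (l - 1)).sup J₀ with hJJ
  refine ⟨∑ c ∈ Icc 1 (l - 1), D c + (⌊Real.exp (cc * JJ)⌋₊ + 1), cc, hccpos, fun J S hS => ?_⟩
  by_cases hJ : JJ ≤ J
  · refine le_trans ?_ (Nat.le_add_right _ _)
    have hcov : S ⊆ (Icc 1 (l - 1)).biUnion (fun c => S.filter (fun m => (m - 1) % (l - 1) + 1 = c)) := by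
      intro m hm
      rw [mem_biUnion]
      refine ⟨(m - 1) % (l - 1) + 1, ?_, ?_⟩
      · rw [mem_Icc]
        have := Nat.mod_lt (m - 1) hl2
        omega
      · rw [mem_filter]; exact ⟨hm, rfl⟩
    refine (card_le_card hcov).trans (card_biUnion_le.trans (Finset.sum_le_sum fun c hc => ?_))
    by_cases hpar : c % 2 = r % 2
    · have hc1 : 1 ≤ c := (mem_Icc.mp hc).1
      have hform : ∀ m ∈ S.filter (fun m => (m - 1) % (l - 1) + 1 = c),
          m = c + (l - 1) * ((m - 1) / (l - 1)) := by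
        intro m hm
        rw [mem_filter] at hm
        have h2 := Nat.mod_add_div (m - 1) (l - 1)
        have h3 := (hS m hm.1).2.1
        omega
      have hinjOn : Set.InjOn (fun m => (m - 1) / (l - 1))
          (S.filter (fun m => (m - 1) % (l - 1) + 1 = c) : Set ℕ) := by
        intro a ha b hb hab
        rw [hform a ha, hform b hb]
        simp only at hab
        rw [hab]
      rw [← card_image_of_injOn hinjOn]
      refine hcl c hc1 hpar J (le_trans (Finset.le_sup hc) hJ) _ fun s hs => ?_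
      rw [mem_image] at hs
      obtain ⟨m, hm, rfl⟩ := hs
      rw [← hform m hm]
      rw [mem_filter] at hm
      obtain ⟨a1, a2, a3, a4, a5⟩ := hS m hm.1
      refine ⟨a3, a4.trans (Real.exp_le_exp.mpr ?_), a5⟩
      exact mul_le_mul_of_nonneg_right (Finset.inf'_le _ hc) (by positivity)
    · have : S.filter (fun m => (m - 1) % (l - 1) + 1 = c) = ∅ := by
        rw [Finset.filter_eq_empty_iff]
        intro m hm h2
        obtain ⟨a1, a2, -⟩ := hS m hm
        apply hpar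
        rw [← a1, ← h2]
        have h3 := Nat.mod_add_div (m - 1) (l - 1)
        obtain ⟨k, hk⟩ := heven
        have h4 : m = (m - 1) % (l - 1) + 1 + 2 * (k * ((m - 1) / (l - 1))) := by
          have : (l - 1) * ((m - 1) / (l - 1)) = 2 * (k * ((m - 1) / (l - 1))) := by
            generalize (m - 1) / (l - 1) = q
            rw [hk]; ring
          omega
        conv_rhs => rw [h4]
        rw [Nat.add_mul_mod_self_left]
      rw [this]; simp
  · push Not at hJ
    refine le_trans ?_ (Nat.le_add_left _ _)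
    have hsub : S ⊆ range (⌊Real.exp (cc * JJ)⌋₊ + 1) := by
      intro m hm
      rw [mem_range, Nat.lt_succ_iff]
      apply Nat.le_floor
      refine (hS m hm).2.2.2.1.trans (Real.exp_le_exp.mpr ?_)
      apply mul_le_mul_of_nonneg_left _ hccpos.le
      exact_mod_cast hJ.le
    exact (card_le_card hsub).trans (by rw [card_range])

open Classical in
/-- **Sparseness**, without weights: the even relations. -/
theorem sparse_main {n : ℕ} (T : Fin n → AlgebraicClosure ℚ)
    (h0 : ∀ v, T v ≠ 0) (h1 : ∀ v, T v ≠ 1) (hns : ¬ Inv T) :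
    ∃ D : ℕ, ∃ c₀ : ℝ, 0 < c₀ ∧ ∀ (J : ℕ) (S : Finset ℕ),
      (∀ m ∈ S, Even m ∧ 1 ≤ m ∧ J ≤ m ∧ (m : ℝ) ≤ Real.exp (c₀ * J) ∧
        ∑ v, LL m (T v) = 0) → S.card ≤ D := by
  obtain ⟨D, c₀, hc₀, h⟩ := sparse_main_w T (fun _ => 1) h0 h1 0 (by
    intro hall
    apply hns
    refine H90FD.invStable_of_card h0 fun s hs => ?_
    have h2 := hall s hs
    rw [pow_zero, one_mul, Finset.sum_const, Finset.sum_const, nsmul_eq_mul, nsmul_eq_mul,
      mul_one, mul_one] at h2
    exact_mod_cast h2)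
  refine ⟨D, c₀, hc₀, fun J S hS => h J S fun m hm => ?_⟩
  obtain ⟨a1, a2, a3, a4, a5⟩ := hS m hm
  refine ⟨by rw [Nat.even_iff.mp a1], a2, a3, a4, ?_⟩
  simpa using a5

end H59FD
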