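import Pool.Agent.H59.FD.Eul

/-!
# FD, Step 2: if `∑_v L_m(T_v) = 0` on a whole even class mod an even `N`, then `{T_v}` is
stable under inversion.
-/

open Finset Filter Topology

namespace H59FD

open Pool.Agent.H42.FD (PE LL)

/-- the set where `1 - t e^(ζ z)` vanishes is countable -/
lemma countable_zero (t ζ : ℂ) (hζ : ζ ≠ 0) : {z : ℂ | t * Complex.exp (ζ * z) = 1}.Countable := by
  rcases Set.eq_empty_or_nonempty {z : ℂ | t * Complex.exp (ζ * z) = 1} with he | ⟨z₀, hz₀⟩
  · rw [he]; exact Set.countable_empty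
  · have hsub : {z : ℂ | t * Complex.exp (ζ * z) = 1} ⊆
        Set.range (fun n : ℤ => z₀ + n * (2 * Real.pi * Complex.I) / ζ) := by
      intro z hz
      simp only [Set.mem_setOf_eq] at hz hz₀
      have ht : t ≠ 0 := by
        rintro rfl; simp at hz
      have hexp : Complex.exp (ζ * z) = Complex.exp (ζ * z₀) :=
        mul_left_cancel₀ ht (hz.trans hz₀.symm)
      obtain ⟨n, hn⟩ := Complex.exp_eq_exp_iff_exists_int.mp hexp
      refine ⟨n, ?_⟩
      simp only
      field_simp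
      rw [hn]
      ring
    exact (Set.countable_range _).mono hsub

/-- limit of `(z - z₀)/(1 - t e^(ζ z))` -/
lemma tendsto_res (t ζ z₀ : ℂ) (hζ : ζ ≠ 0) :
    Tendsto (fun z => (z - z₀) * (1 / (1 - t * Complex.exp (ζ * z)))) (𝓝[≠] z₀)
      (𝓝 (if t * Complex.exp (ζ * z₀) = 1 then -ζ⁻¹ else 0)) := by
  have hcont : Continuous (fun z => 1 - t * Complex.exp (ζ * z)) := by fun_prop
  split_ifs with h
  · have hd : HasDerivAt (fun z => 1 - t * Complex.exp (ζ * z)) (-ζ) z₀ := by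
      have h1 : HasDerivAt (fun z => ζ * z) ζ z₀ := by
        simpa using (hasDerivAt_id z₀).const_mul ζ
      have h2 := ((h1.cexp).const_mul t).const_sub 1
      refine h2.congr_deriv ?_
      rw [← mul_assoc, h, one_mul]
    have hs := hasDerivAt_iff_tendsto_slope.mp hd
    have hs2 := hs.inv₀ (neg_ne_zero.mpr hζ)
    rw [← inv_neg] at *
    refine hs2.congr' ?_
    filter_upwards [self_mem_nhdsWithin] with z hz
    have hz' : z - z₀ ≠ 0 := sub_ne_zero.mpr hz
    rw [slope_def_field, h, sub_self, sub_zero, inv_div, div_eq_mul_one_div]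
  · have hne : 1 - t * Complex.exp (ζ * z₀) ≠ 0 := sub_ne_zero.mpr (Ne.symm h)
    have h1 : Tendsto (fun z => (z - z₀) * (1 / (1 - t * Complex.exp (ζ * z)))) (𝓝 z₀)
        (𝓝 ((z₀ - z₀) * (1 / (1 - t * Complex.exp (ζ * z₀))))) := by
      have : ContinuousAt (fun z => (z - z₀) * (1 / (1 - t * Complex.exp (ζ * z)))) z₀ := by
        refine ContinuousAt.mul (by fun_prop) ?_
        exact ContinuousAt.div continuousAt_const hcont.continuousAt hne
      exact this
    rw [sub_self, zero_mul] at h1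
    exact h1.mono_left nhdsWithin_le_nhds

/-- a good `k` -/
lemma exists_k {n N : ℕ} (T : Fin n → ℂ) (ζ : ℕ → ℂ) (w : ℂ) :
    ∃ k : ℕ, ∀ j ∈ range N, (ζ j).im ≠ 0 → ∀ v,
      T v * Complex.exp (ζ j * (w + k * (2 * Real.pi * Complex.I))) ≠ 1 := by
  have hfin : (⋃ j ∈ range N, ⋃ v : Fin n, {k : ℕ | (ζ j).im ≠ 0 ∧
      T v * Complex.exp (ζ j * (w + k * (2 * Real.pi * Complex.I))) = 1}).Finite := by
    refine Set.Finite.biUnion (range N).finite_toSet fun j _ => Set.finite_iUnion fun v => ?_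
    refine Set.Subsingleton.finite ?_
    rintro k ⟨him, hk⟩ k' ⟨-, hk'⟩
    have hT : T v ≠ 0 := by
      intro h0; rw [h0, zero_mul] at hk; exact zero_ne_one hk
    have he : Complex.exp (ζ j * (w + k * (2 * Real.pi * Complex.I))) =
        Complex.exp (ζ j * (w + k' * (2 * Real.pi * Complex.I))) :=
      mul_left_cancel₀ hT (hk.trans hk'.symm)
    have hn := congrArg norm he
    rw [Complex.norm_exp, Complex.norm_exp] at hn
    have hre := Real.exp_injective hn
    have e1 : ∀ q : ℕ, (ζ j * (w + q * (2 * Real.pi * Complex.I))).re =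
        (ζ j * w).re - (ζ j).im * (q * (2 * Real.pi)) := by
      intro q
      rw [mul_add, Complex.add_re]
      have : (ζ j * ((q : ℂ) * (2 * Real.pi * Complex.I))).re = - (ζ j).im * (q * (2 * Real.pi)) := by
        have : (q : ℂ) * (2 * Real.pi * Complex.I) = ((q * (2 * Real.pi) : ℝ) : ℂ) * Complex.I := by
          push_cast; ring
        rw [this, ← mul_assoc, mul_comm (ζ j), mul_assoc, Complex.re_ofReal_mul]
        simp
        ring
      rw [this]; ring
    rw [e1, e1] at hre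
    have h2 : (ζ j).im * (2 * Real.pi) * ((k : ℝ) - k') = 0 := by linarith
    have h3 : (ζ j).im * (2 * Real.pi) ≠ 0 := mul_ne_zero him (by positivity)
    have h4 := (mul_eq_zero.mp h2).resolve_left h3
    have h5 : (k : ℝ) = k' := by linarith
    exact_mod_cast h5
  obtain ⟨k, hk⟩ := hfin.infinite_compl.nonempty
  refine ⟨k, fun j hj him v he => hk ?_⟩
  simp only [Set.mem_iUnion]
  exact ⟨j, hj, v, him, he⟩

/-- the function is a polynomial near `0` -/
lemma near_zero {n : ℕ} (T w : Fin n → ℂ) (h1 : ∀ v, T v ≠ 1) {N : ℕ} (hN0 : 0 < N) (c : ℕ)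
    (M₀ : ℕ) (hu : ∀ m, M₀ ≤ m → m ≡ c [MOD N] → ∑ v, w v * LL m (T v) = 0)
    (ζ : ℂ) (hζ : IsPrimitiveRoot ζ N) :
    ∀ᶠ z in 𝓝 (0 : ℂ), ∑ j ∈ range N, (ζ ^ j) ^ ((N - 1) * c) *
      ∑ v, w v * (1 / (1 - T v * Complex.exp (ζ ^ j * z))) =
      ∑ m ∈ range M₀, ∑ j ∈ range N, (ζ ^ j) ^ ((N - 1) * c) *
        ∑ v, w v * ((m.factorial : ℂ)⁻¹ * (ζ ^ j * z) ^ m * LL m (T v)) := by
  have hnorm : ∀ j, ‖ζ ^ j‖ = 1 := by
    intro j
    rw [norm_pow, hζ.norm'_eq_one hN0.ne', one_pow]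
  -- a ball
  have hopen : IsOpen {z : ℂ | ∀ v, T v * Complex.exp z ≠ 1} := by
    have : {z : ℂ | ∀ v, T v * Complex.exp z ≠ 1} = ⋂ v, {z : ℂ | T v * Complex.exp z ≠ 1} := by
      ext z; simp
    rw [this]
    exact isOpen_iInter_of_finite fun v =>
      isOpen_ne_fun (continuous_const.mul Complex.continuous_exp) continuous_const
  have h0 : (0 : ℂ) ∈ {z : ℂ | ∀ v, T v * Complex.exp z ≠ 1} := by
    intro v; simpa using h1 v
  obtain ⟨r, hr, hball⟩ := Metric.isOpen_iff.mp hopen 0 h0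
  have hsum : ∀ v, ∀ z ∈ Metric.ball (0 : ℂ) r,
      HasSum (fun m : ℕ => (m.factorial : ℂ)⁻¹ * z ^ m * LL m (T v))
        (1 / (1 - T v * Complex.exp z)) := by
    intro v z hz
    have hd : DifferentiableOn ℂ (fun z => 1 / (1 - T v * Complex.exp z)) (Metric.ball 0 r) := by
      intro w hw
      have hw' := hball hw v
      have : DifferentiableAt ℂ (fun z => 1 / (1 - T v * Complex.exp z)) w := by
        refine DifferentiableAt.div (by fun_prop) (by fun_prop) ?_
        exact sub_ne_zero.mpr (Ne.symm hw')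
      exact this.differentiableWithinAt
    have h2 := Complex.hasSum_taylorSeries_on_ball hd hz
    have h3 : (fun m : ℕ => (m.factorial : ℂ)⁻¹ • (z - 0) ^ m •
        iteratedDeriv m (fun z => 1 / (1 - T v * Complex.exp z)) 0) =
        fun m : ℕ => (m.factorial : ℂ)⁻¹ * z ^ m * LL m (T v) := by
      funext m
      rw [iteratedDeriv_LL (T v) m 0 (by simpa using h1 v)]
      simp only [sub_zero, smul_eq_mul, Complex.exp_zero, mul_one]
      ring
    rw [h3] at h2
    exact h2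
  filter_upwards [Metric.ball_mem_nhds (0 : ℂ) hr] with z hz
  have hzj : ∀ j, ζ ^ j * z ∈ Metric.ball (0 : ℂ) r := by
    intro j
    rw [mem_ball_zero_iff] at hz ⊢
    rw [norm_mul, hnorm, one_mul]
    exact hz
  have hs : HasSum (fun m : ℕ => ∑ j ∈ range N, (ζ ^ j) ^ ((N - 1) * c) *
        ∑ v, w v * ((m.factorial : ℂ)⁻¹ * (ζ ^ j * z) ^ m * LL m (T v)))
      (∑ j ∈ range N, (ζ ^ j) ^ ((N - 1) * c) *
      ∑ v, w v * (1 / (1 - T v * Complex.exp (ζ ^ j * z)))) := by
    refine hasSum_sum fun j _ => ?_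
    refine HasSum.mul_left _ ?_
    exact hasSum_sum fun v _ => (hsum v _ (hzj j)).mul_left _
  have hz0 : ∀ m, m ∉ range M₀ → ∑ j ∈ range N, (ζ ^ j) ^ ((N - 1) * c) *
        ∑ v, w v * ((m.factorial : ℂ)⁻¹ * (ζ ^ j * z) ^ m * LL m (T v)) = 0 := by
    intro m hm
    have hm' : M₀ ≤ m := by simpa using hm
    have e1 : ∑ j ∈ range N, (ζ ^ j) ^ ((N - 1) * c) *
        ∑ v, w v * ((m.factorial : ℂ)⁻¹ * (ζ ^ j * z) ^ m * LL m (T v)) =
        (∑ j ∈ range N, (ζ ^ ((N - 1) * c + m)) ^ j) *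
          ((m.factorial : ℂ)⁻¹ * z ^ m * ∑ v, w v * LL m (T v)) := by
      rw [Finset.sum_mul]
      refine Finset.sum_congr rfl fun j _ => ?_
      have e0 : ∀ v, w v * ((m.factorial : ℂ)⁻¹ * (ζ ^ j * z) ^ m * LL m (T v)) =
          ((m.factorial : ℂ)⁻¹ * (ζ ^ j * z) ^ m) * (w v * LL m (T v)) := fun v => by ring
      simp only [e0]
      rw [← Finset.mul_sum, mul_pow, ← pow_mul, ← pow_mul, ← pow_mul]
      have : ζ ^ (((N - 1) * c + m) * j) = ζ ^ (j * ((N - 1) * c)) * ζ ^ (j * m) := by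
        rw [← pow_add]; congr 1; ring
      rw [this]
      ring
    rw [e1]
    by_cases hcl : m ≡ c [MOD N]
    · rw [hu m hm' hcl]; simp
    · have hx : ζ ^ ((N - 1) * c + m) ≠ 1 := by
        intro h
        apply hcl
        have hdvd := hζ.dvd_of_pow_eq_one _ h
        have h3 : (N - 1) * c + m ≡ 0 [MOD N] := (Nat.modEq_zero_iff_dvd).mpr hdvd
        have h4 : c + ((N - 1) * c + m) ≡ c + 0 [MOD N] := Nat.ModEq.add_left c h3
        have h5 : c + ((N - 1) * c + m) = N * c + m := by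
          obtain ⟨q, rfl⟩ : ∃ q, N = q + 1 := ⟨N - 1, by omega⟩
          simp; ring
        rw [h5, add_zero] at h4
        have h6 : N * c + m ≡ m [MOD N] := by
          have : N * c + m ≡ 0 + m [MOD N] :=
            Nat.ModEq.add_right m ((Nat.modEq_zero_iff_dvd).mpr (dvd_mul_right N c))
          simpa using this
        exact h6.symm.trans h4
      have hgeo := mul_neg_geom_sum (ζ ^ ((N - 1) * c + m)) N
      have hN1 : (ζ ^ ((N - 1) * c + m)) ^ N = 1 := by
        rw [← pow_mul, mul_comm, pow_mul, hζ.pow_eq_one, one_pow]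
      rw [hN1, sub_self] at hgeo
      have h7 : (1 - ζ ^ ((N - 1) * c + m)) ≠ 0 := sub_ne_zero.mpr (Ne.symm hx)
      rw [(mul_eq_zero.mp hgeo).resolve_left h7, zero_mul]
  exact hs.unique (hasSum_sum_of_ne_finset_zero hz0)

/-- **Whole class**, with weights and parity.  If `∑_v w_v L_m(T_v) = 0` for all large `m` in a
class `c` modulo an even `N`, then the weights at `t` and at `1/t` agree up to `(-1)^c`. -/
theorem whole_class_w {n : ℕ} (T w : Fin n → ℂ) (h1 : ∀ v, T v ≠ 1) {N : ℕ} (hN0 : 0 < N)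
    (hN : Even N) (c : ℕ) (M₀ : ℕ)
    (hu : ∀ m, M₀ ≤ m → m ≡ c [MOD N] → ∑ v, w v * LL m (T v) = 0) (t : ℂ) (ht : t ≠ 0) :
    ∑ v ∈ univ.filter (fun v => T v = t), w v =
      (-1) ^ c * ∑ v ∈ univ.filter (fun v => T v * t = 1), w v := by
  classical
  set ζ : ℂ := Complex.exp (2 * Real.pi * Complex.I / N) with hζd
  have hζ : IsPrimitiveRoot ζ N := Complex.isPrimitiveRoot_exp N hN0.ne'
  have hζ0 : ∀ j, ζ ^ j ≠ 0 := fun j => pow_ne_zero _ (hζ.ne_zero hN0.ne')
  have hnorm : ∀ j, ‖ζ ^ j‖ = 1 := by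
    intro j
    rw [norm_pow, hζ.norm'_eq_one hN0.ne', one_pow]
  set e := (N - 1) * c with he
  have hee : (-1 : ℂ) ^ e = (-1) ^ c := by
    have hodd : Odd (N - 1) := Nat.Even.sub_odd hN0 hN odd_one
    rw [he, pow_mul, hodd.neg_one_pow]
  -- the open dense set
  set g : ℂ → ℂ := fun z => ∑ j ∈ range N, (ζ ^ j) ^ e *
      ∑ v, w v * (1 / (1 - T v * Complex.exp (ζ ^ j * z))) with hg
  set q : ℂ → ℂ := fun z => ∑ m ∈ range M₀, ∑ j ∈ range N, (ζ ^ j) ^ e *
        ∑ v, w v * ((m.factorial : ℂ)⁻¹ * (ζ ^ j * z) ^ m * LL m (T v)) with hq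
  set P : Set ℂ := ⋃ j ∈ range N, ⋃ v : Fin n, {z : ℂ | T v * Complex.exp (ζ ^ j * z) = 1} with hP
  have hPc : P.Countable := by
    refine Set.Countable.biUnion (range N).countable_toSet fun j _ => Set.countable_iUnion fun v => ?_
    exact countable_zero _ _ (hζ0 j)
  have hPcl : IsClosed P := by
    refine Set.Finite.isClosed_biUnion (range N).finite_toSet fun j _ => ?_
    refine isClosed_iUnion_of_finite fun v => ?_
    exact isClosed_eq (by fun_prop) continuous_const
  have hmem : ∀ z, z ∉ P ↔ ∀ j ∈ range N, ∀ v, T v * Complex.exp (ζ ^ j * z) ≠ 1 := by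
    intro z; simp [hP]
  have hrank : 1 < Module.rank ℝ ℂ := by
    rw [Complex.rank_real_complex]; exact Nat.one_lt_ofNat
  have hU : IsPreconnected Pᶜ := (hPc.isPathConnected_compl_of_one_lt_rank hrank).isConnected.isPreconnected
  have h0U : (0 : ℂ) ∈ Pᶜ := by
    rw [Set.mem_compl_iff, hmem]
    intro j _ v
    simpa using h1 v
  have hgd : DifferentiableOn ℂ g Pᶜ := by
    intro z hz
    have hz' := (hmem z).mp hz
    refine DifferentiableAt.differentiableWithinAt ?_
    refine DifferentiableAt.fun_sum fun j hj => ?_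
    refine DifferentiableAt.const_mul ?_ _
    refine DifferentiableAt.fun_sum fun v _ => ?_
    refine DifferentiableAt.const_mul ?_ _
    refine DifferentiableAt.div (by fun_prop) (by fun_prop) ?_
    exact sub_ne_zero.mpr (Ne.symm (hz' j hj v))
  have hqd : Differentiable ℂ q := by
    simp only [hq]; fun_prop
  have hev : g =ᶠ[𝓝 (0 : ℂ)] q := near_zero T w h1 hN0 c M₀ hu ζ hζ
  have hEq : Set.EqOn g q Pᶜ :=
    (hgd.analyticOnNhd hPcl.isOpen_compl).eqOn_of_preconnected_of_eventuallyEq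
      (fun z _ => hqd.analyticAt z) hU h0U hev
  -- the point
  obtain ⟨k, hk⟩ := exists_k (N := N) T (fun j => ζ ^ j) (-Complex.log t)
  set z₀ : ℂ := -Complex.log t + k * (2 * Real.pi * Complex.I) with hz₀
  have hexp : Complex.exp z₀ = t⁻¹ := by
    rw [hz₀, Complex.exp_add, Complex.exp_neg, Complex.exp_log ht]
    have : (k : ℂ) * (2 * Real.pi * Complex.I) = ((k : ℤ) : ℂ) * (2 * Real.pi * Complex.I) := by
      push_cast; ring
    rw [this, Complex.exp_int_mul_two_pi_mul_I, mul_one]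
  -- the filter
  have hcount : (P ∪ {z₀}).Countable := hPc.union (Set.countable_singleton _)
  have hdense : Dense ((P ∪ {z₀})ᶜ) := hcount.dense_compl ℝ
  have : NeBot (𝓝[(P ∪ {z₀})ᶜ] z₀) := mem_closure_iff_nhdsWithin_neBot.mp (hdense z₀)
  have hle : 𝓝[(P ∪ {z₀})ᶜ] z₀ ≤ 𝓝[≠] z₀ :=
    nhdsWithin_mono _ (by
      intro z hz h
      exact hz (Or.inr h))
  have hlim1 : Tendsto (fun z => (z - z₀) * g z) (𝓝[(P ∪ {z₀})ᶜ] z₀)
      (𝓝 (∑ j ∈ range N, (ζ ^ j) ^ e *
        ∑ v, w v * (if T v * Complex.exp (ζ ^ j * z₀) = 1 then -(ζ ^ j)⁻¹ else 0))) := by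
    have : (fun z => (z - z₀) * g z) = fun z => ∑ j ∈ range N, (ζ ^ j) ^ e *
        ∑ v, w v * ((z - z₀) * (1 / (1 - T v * Complex.exp (ζ ^ j * z)))) := by
      funext z
      simp only [hg]
      rw [Finset.mul_sum]
      refine Finset.sum_congr rfl fun j _ => ?_
      rw [mul_left_comm, Finset.mul_sum]
      congr 1
      exact Finset.sum_congr rfl fun v _ => by ring
    rw [this]
    refine tendsto_finsetSum _ fun j _ => ?_
    refine Tendsto.const_mul _ ?_
    refine tendsto_finsetSum _ fun v _ => ?_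
    refine Tendsto.const_mul _ ?_
    exact (tendsto_res _ _ _ (hζ0 j)).mono_left hle
  have hlim2 : Tendsto (fun z => (z - z₀) * g z) (𝓝[(P ∪ {z₀})ᶜ] z₀) (𝓝 0) := by
    have h2 : Tendsto (fun z => (z - z₀) * q z) (𝓝 z₀) (𝓝 0) := by
      have : Continuous fun z => (z - z₀) * q z :=
        (continuous_id.sub continuous_const).mul hqd.continuous
      have h3 := this.tendsto z₀
      simpa using h3
    refine (h2.mono_left nhdsWithin_le_nhds).congr' ?_
    filter_upwards [self_mem_nhdsWithin] with z hz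
    have hzP : z ∈ Pᶜ := fun h => hz (Or.inl h)
    rw [hEq hzP]
  have hsum0 := tendsto_nhds_unique hlim1 hlim2
  -- only `j = 0` and `j = N/2`
  obtain ⟨N', hN'⟩ := hN
  have hN'0 : 0 < N' := by omega
  have hhalf : ζ ^ N' = -1 := by
    have h2 : (ζ ^ N') ^ 2 = 1 := by
      rw [← pow_mul, mul_two, ← hN', hζ.pow_eq_one]
    have h3 : (ζ ^ N' - 1) * (ζ ^ N' + 1) = 0 := by linear_combination h2
    rcases mul_eq_zero.mp h3 with h | h
    · exfalso
      have h4 : ζ ^ N' = 1 := sub_eq_zero.mp h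
      have h5 := hζ.dvd_of_pow_eq_one _ h4
      have h6 := Nat.le_of_dvd hN'0 h5
      omega
    · exact eq_neg_of_add_eq_zero_left h
  have hother : ∀ j ∈ range N, j ≠ 0 ∧ j ≠ N' → (ζ ^ j) ^ e *
        ∑ v, w v * (if T v * Complex.exp (ζ ^ j * z₀) = 1 then -(ζ ^ j)⁻¹ else 0) = 0 := by
    rintro j hj ⟨hj0, hjN⟩
    have him : (ζ ^ j).im ≠ 0 := by
      intro him
      have hx : (ζ ^ j) = (((ζ ^ j).re : ℝ) : ℂ) := by
        apply Complex.ext <;> simp [him]
      have hn := hnorm j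
      rw [hx, Complex.norm_real, Real.norm_eq_abs] at hn
      have h2 : (ζ ^ j) ^ 2 = 1 := by
        rw [hx]
        have : (ζ ^ j).re ^ 2 = 1 := by
          rw [← sq_abs, hn, one_pow]
        exact_mod_cast this
      rw [← pow_mul] at h2
      obtain ⟨q', hq'⟩ := hζ.dvd_of_pow_eq_one _ h2
      have hjN' : j < N := mem_range.mp hj
      have hq1 : q' = 0 ∨ q' = 1 := by
        by_contra hcon
        push Not at hcon
        have : 2 ≤ q' := by omega
        have : N * 2 ≤ N * q' := Nat.mul_le_mul_left _ this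
        omega
      rcases hq1 with rfl | rfl <;> omega
    rw [Finset.sum_eq_zero, mul_zero]
    intro v _
    rw [if_neg (hk j hj him v), mul_zero]
  rw [Finset.sum_eq_add 0 N' (by omega) hother (fun h => absurd (mem_range.mpr hN0) h)
    (fun h => absurd (mem_range.mpr (by omega)) h), hhalf, hee] at hsum0
  have hexp' : Complex.exp (-1 * z₀) = t := by
    rw [neg_one_mul, Complex.exp_neg, hexp, inv_inv]
  rw [hexp'] at hsum0
  simp only [pow_zero, one_pow, one_mul, hexp, inv_one, neg_neg, inv_neg] at hsum0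
  have hcond : ∀ v, (T v * t⁻¹ = 1) ↔ (T v = t) := by
    intro v
    rw [← div_eq_mul_inv, div_eq_one_iff_eq ht]
  simp only [hcond, mul_ite, mul_zero, mul_neg, mul_one] at hsum0
  rw [← Finset.sum_filter, ← Finset.sum_filter, Finset.sum_neg_distrib] at hsum0
  linear_combination -hsum0

/-- **Whole class**, without weights. -/
theorem whole_class_aux {n : ℕ} (T : Fin n → ℂ) (h1 : ∀ v, T v ≠ 1) {N : ℕ} (hN0 : 0 < N)
    (hN : Even N) {c : ℕ} (hc : Even c) (M₀ : ℕ)
    (hu : ∀ m, M₀ ≤ m → m ≡ c [MOD N] → ∑ v, LL m (T v) = 0) (t : ℂ) (ht : t ≠ 0) :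
    (univ.filter fun w => T w = t).card = (univ.filter fun w => T w * t = 1).card := by
  have h := whole_class_w T (fun _ => 1) h1 hN0 hN c M₀ (by simpa using hu) t ht
  rw [hc.neg_one_pow, one_mul] at h
  simp only [Finset.sum_const, nsmul_eq_mul, mul_one] at h
  exact_mod_cast h

/-- **Whole class**, the form used in FD. -/
theorem whole_class {n : ℕ} (T : Fin n → ℂ) (h0 : ∀ v, T v ≠ 0) (h1 : ∀ v, T v ≠ 1) (N c : ℕ)
    (hN : Even N) (hN0 : 0 < N) (hc : Even c)
    (h : ∀ m, 1 ≤ m → m % N = c % N → ∑ v, LL m (T v) = 0) (v : Fin n) :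
    (univ.filter fun w => T w = T v).card = (univ.filter fun w => T w * T v = 1).card :=
  whole_class_aux T h1 hN0 hN hc 1 (fun m hm hmc => h m hm hmc) (T v) (h0 v)

end H59FD
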